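import Mathlib
import Pool.Agent.TH888.R.Base
import Pool.Agent.H447R2.ML.Spec

set_option autoImplicit false

/-!
# The Lenstra-Pomerance-Wagstaff law for every fixed pair `(a, b)`: error term and sets of exponents

For integers `a > 1`, `-a < b < a`, a real `β > 0` and a prime `p` let `W a b β p` be the `p`-rough
part (the product, with multiplicity, of the prime factors larger than `p`) of
`⌊β a ^ p - b ^ p / (a - b)⌋`.  At the amplitude `β = 1 / (a - b)` the number `W a b β p` is
`(a ^ p - b ^ p) / (a - b)` itself, for all coprime `a`, `b` and all primes `p` not dividing `a - b`.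
The pair `(a, b)` is fixed and the amplitude `β` varies.  For a set `S` let `M S a b β n` be the
number of primes `p ≤ n` in `S` with `W a b β p` prime, and let `V S n` be the sum of `log p / p`
over the primes `p ≤ n` in `S`.  We prove that almost every `β > 0` has the following property for
all pairs `(a, b)` at once: the number of primes `p ≤ n` with `W a b β p` prime is
`(e ^ γ / log a) log n + O((log n) ^ (1/2) (log log n) ^ (5/2))`.  The same is proved for the
exponents in any set `S` of primes, with the dichotomy finite / infinite.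
-/

namespace Pool.Agent.Results.MP_de9007_nt.FixedPairsErrorTerm

open Filter Topology MeasureTheory Asymptotics

/-- The product, with multiplicity, of the prime factors of `m` that are larger than `p`. -/
def roughPart (p m : ℕ) : ℕ := (m.primeFactorsList.filter (fun r => p < r)).prod

/-- The `p`-rough part of `⌊β a ^ p - b ^ p / (a - b)⌋`. -/
noncomputable def W (a b : ℤ) (β : ℝ) (p : ℕ) : ℕ :=
  roughPart p ⌊β * (a : ℝ) ^ p - (b : ℝ) ^ p / ((a : ℝ) - b)⌋₊

open Classical in
/-- The number of primes `p ≤ n` in the set `S` for which `W a b β p` is prime. -/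
noncomputable def M (S : Set ℕ) (a b : ℤ) (β : ℝ) (n : ℕ) : ℕ :=
  ((Finset.range (n + 1)).filter (fun p => p.Prime ∧ p ∈ S ∧ (W a b β p).Prime)).card

open Classical in
/-- The sum of `log p / p` over the primes `p ≤ n` in the set `S`. -/
noncomputable def V (S : Set ℕ) (n : ℕ) : ℝ :=
  ∑ p ∈ (Finset.range (n + 1)).filter (fun p => p.Prime ∧ p ∈ S), Real.log p / p

open Classical in
/-- The number of primes `p ≤ n` in the set `S` for which `(a ^ p - b ^ p) / (a - b)` is prime. -/
noncomputable def count (S : Set ℕ) (a b : ℤ) (n : ℕ) : ℕ :=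
  ((Finset.range (n + 1)).filter
    (fun p => p.Prime ∧ p ∈ S ∧ Prime ((a ^ p - b ^ p) / (a - b)))).card

lemma V_eq (S : Set ℕ) (n : ℕ) : V S n = Pool.Agent.TH888.R.VS S n := by
  classical
  unfold V Pool.Agent.TH888.R.VS
  rw [Finset.sum_filter]
  refine Finset.sum_congr rfl fun p _ => ?_
  by_cases h : p.Prime ∧ p ∈ S
  · rw [if_pos h, if_pos ⟨h.2, h.1⟩]
    rfl
  · rw [if_neg h, if_neg fun h1 => h ⟨h1.2, h1.1⟩]

/-- The special amplitude. -/
lemma special {a b : ℤ} (hab : IsCoprime a b) (h1 : -a < b) (h2 : b < a) {p : ℕ} (hp : p.Prime)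
    (hpd : ¬ (p : ℤ) ∣ a - b) : (W a b (1 / ((a : ℝ) - b)) p : ℤ) * (a - b) = a ^ p - b ^ p := by
  have h := Pool.Agent.H447R2.ML.rough_quot hab h1 h2 hp hpd rfl
  have hgeom : (∑ i ∈ Finset.range p, a ^ i * b ^ (p - 1 - i)) * (a - b) = a ^ p - b ^ p :=
    (Commute.all a b).geom_sum₂_mul p
  rw [← h] at hgeom
  exact hgeom

lemma card_le_of_eventually {s t : ℕ → Prop} [DecidablePred s] [DecidablePred t] (D : ℕ)
    (h : ∀ p, D < p → s p → t p) (n : ℕ) :
    (((Finset.range (n + 1)).filter s).card : ℝ) ≤ (((Finset.range (n + 1)).filter t).card : ℝ) +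
      (D + 1 : ℕ) := by
  have h1 : (Finset.range (n + 1)).filter s ⊆ (Finset.range (n + 1)).filter t ∪ Finset.range (D + 1) := by
    intro p hp
    rw [Finset.mem_filter] at hp
    rw [Finset.mem_union, Finset.mem_filter]
    by_cases hD : D < p
    · exact Or.inl ⟨hp.1, h p hD hp.2⟩
    · exact Or.inr (Finset.mem_range.2 (by omega))
  have h2 := (Finset.card_le_card h1).trans (Finset.card_union_le _ _)
  rw [Finset.card_range] at h2
  exact_mod_cast h2

/-- at the special amplitude the two counting functions differ by a bounded amount -/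
lemma count_close {a b : ℤ} (hab : IsCoprime a b) (h1 : -a < b) (h2 : b < a) (S : Set ℕ) :
    ∃ D : ℝ, ∀ n : ℕ, |(count S a b n : ℝ) - M S a b (1 / ((a : ℝ) - b)) n| ≤ D := by
  classical
  have key : ∀ p : ℕ, (a - b).natAbs < p → p.Prime →
      ((W a b (1 / ((a : ℝ) - b)) p).Prime ↔ Prime ((a ^ p - b ^ p) / (a - b))) := by
    intro p hD hp
    have h3 : ¬ (p : ℤ) ∣ a - b := by
      intro hd
      have h4 := Int.natAbs_dvd_natAbs.2 hd
      rw [Int.natAbs_natCast] at h4
      have h5 := Nat.le_of_dvd (Int.natAbs_pos.2 (by omega)) h4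
      omega
    have h4 := special hab h1 h2 hp h3
    rw [← h4, Int.mul_ediv_cancel _ (by omega)]
    exact Nat.prime_iff_prime_int
  refine ⟨((a - b).natAbs + 1 : ℕ), fun n => ?_⟩
  have e1 : (M S a b (1 / ((a : ℝ) - b)) n : ℝ) ≤ count S a b n + ((a - b).natAbs + 1 : ℕ) :=
    card_le_of_eventually (a - b).natAbs
      (fun p hD hp => ⟨hp.1, hp.2.1, (key p hD hp.1).1 hp.2.2⟩) n
  have e2 : (count S a b n : ℝ) ≤ M S a b (1 / ((a : ℝ) - b)) n + ((a - b).natAbs + 1 : ℕ) :=
    card_le_of_eventually (a - b).natAbs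
      (fun p hD hp => ⟨hp.1, hp.2.1, (key p hD hp.1).2 hp.2.2⟩) n
  rw [abs_le]
  constructor <;> linarith

lemma M_eq (S : Set ℕ) (a b : ℤ) (β : ℝ) (n : ℕ) :
    M S a b β n = Pool.Agent.TH888.R.cS S (fun p => ⌊β * (a : ℝ) ^ p +
      (fun p : ℕ => -((b : ℝ) ^ p / ((a : ℝ) - b))) p⌋₊) n := by
  classical
  unfold M Pool.Agent.TH888.R.cS
  simp only [← sub_eq_add_neg]
  rfl

lemma W_eq (a b : ℤ) (β : ℝ) (p : ℕ) : W a b β p = Pool.Agent.H305R2.roughPart p
    ⌊β * (a : ℝ) ^ p + (fun p : ℕ => -((b : ℝ) ^ p / ((a : ℝ) - b))) p⌋₊ := by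
  unfold W
  simp only [← sub_eq_add_neg]
  rfl

lemma pt (S : Set ℕ) : ∀ᵐ β : ℝ, 0 < β → ∀ a b : ℤ, 1 < a → -a < b → b < a →
    Pool.Agent.TH888.R.Pt
      (fun p => ⌊β * (a : ℝ) ^ p + (fun p : ℕ => -((b : ℝ) ^ p / ((a : ℝ) - b))) p⌋₊)
      (Real.exp Real.eulerMascheroniConstant / Real.log a) S := by
  have h : ∀ a b : ℤ, ∀ᵐ β : ℝ, 1 < a → -a < b → b < a → 0 < β → Pool.Agent.TH888.R.Pt
      (fun p => ⌊β * (a : ℝ) ^ p + (fun p : ℕ => -((b : ℝ) ^ p / ((a : ℝ) - b))) p⌋₊)
        (Real.exp Real.eulerMascheroniConstant / Real.log a) S := by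
    intro a b
    by_cases hc : 1 < a ∧ -a < b ∧ b < a
    · obtain ⟨ha, h1, h2⟩ := hc
      obtain ⟨A, hA⟩ := Int.eq_ofNat_of_zero_le (show 0 ≤ a by omega)
      have hA2 : 2 ≤ A := by omega
      have hA2' : (2 : ℝ) ≤ A := by exact_mod_cast hA2
      have e : (a : ℝ) = (A : ℝ) := by rw [hA]; simp
      have hbr : |(b : ℝ)| < (A : ℝ) := by
        have h3 : |b| < a := abs_lt.2 ⟨h1, h2⟩
        rw [hA] at h3
        exact_mod_cast h3
      have hab : (0 : ℝ) < (A : ℝ) - b := by
        have := le_abs_self (b : ℝ)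
        linarith
      have hg : ∀ p : ℕ, |(fun p : ℕ => -((b : ℝ) ^ p / ((A : ℝ) - b))) p| ≤
          (1 / ((A : ℝ) - b)) * |(b : ℝ)| ^ p := by
        intro p
        simp only
        rw [abs_neg, abs_div, abs_pow, abs_of_pos hab]
        exact le_of_eq (by ring)
      have h := Pool.Agent.TH888.R.pt_floor (α := (A : ℝ)) (κ := |(b : ℝ)|)
        (C := 1 / ((A : ℝ) - b)) (g := fun p : ℕ => -((b : ℝ) ^ p / ((A : ℝ) - b)))
        (by linarith) (abs_nonneg _) hbr hg
        (Pool.Agent.TH888.R.near_base hA2 (abs_nonneg _) hbr hg) S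
      rw [e]
      filter_upwards [h] with β hβ _ _ _ h0
      exact hβ h0
    · exact Eventually.of_forall fun β h1 h2 h3 => absurd ⟨h1, h2, h3⟩ hc
  filter_upwards [ae_all_iff.2 fun a => ae_all_iff.2 (h a)] with β hβ h0 a b ha h1 h2
  exact hβ a b ha h1 h2 h0

/-- At `β = 1 / (a - b)` the values are the numbers of the question (so that the question is the law
for the counting function at this amplitude), and almost every `β` is such that for all pairs
`(a, b)` the law holds with a square root error term; for every set of primes the number of prime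
values is finite or infinite according to the weight of the set, and in the second case it obeys the
corresponding law. -/
theorem result :
    (∀ a b : ℤ, IsCoprime a b → -a < b → b < a → ∀ p : ℕ, p.Prime → ¬ (p : ℤ) ∣ a - b →
      (W a b (1 / ((a : ℝ) - b)) p : ℤ) * (a - b) = a ^ p - b ^ p) ∧
    (∀ a b : ℤ, IsCoprime a b → -a < b → b < a → ∀ S : Set ℕ, ∃ D : ℝ, ∀ n : ℕ,
      |(count S a b n : ℝ) - M S a b (1 / ((a : ℝ) - b)) n| ≤ D) ∧
    (∀ᵐ β : ℝ, 0 < β → ∀ a b : ℤ, 1 < a → -a < b → b < a →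
      (fun n : ℕ => (M Set.univ a b β n : ℝ) -
        Real.exp Real.eulerMascheroniConstant / Real.log a * Real.log n) =O[atTop]
      (fun n : ℕ => Real.sqrt (Real.log n) * (Real.log (Real.log n)) ^ ((5 : ℝ) / 2))) ∧
    (∀ S : Set ℕ, Tendsto (V S) atTop atTop → ∀ᵐ β : ℝ, 0 < β → ∀ a b : ℤ, 1 < a → -a < b → b < a →
      (fun n : ℕ => (M S a b β n : ℝ) -
        Real.exp Real.eulerMascheroniConstant / Real.log a * V S n) =O[atTop]
      (fun n : ℕ => Real.sqrt (V S n * Real.log (Real.log n)) *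
        (Real.log (V S n * Real.log (Real.log n))) ^ 2)) ∧
    (∀ S : Set ℕ, ∀ᵐ β : ℝ, 0 < β → ∀ a b : ℤ, 1 < a → -a < b → b < a →
      ({p : ℕ | p.Prime ∧ p ∈ S ∧ (W a b β p).Prime}.Infinite ↔ Tendsto (V S) atTop atTop)) := by
  have hV : ∀ S, V S = Pool.Agent.TH888.R.VS S := fun S => funext fun n => V_eq S n
  refine ⟨fun a b hab h1 h2 p hp hpd => special hab h1 h2 hp hpd,
    fun a b hab h1 h2 S => count_close hab h1 h2 S, ?_, fun S hS => ?_, fun S => ?_⟩
  · filter_upwards [pt Set.univ] with β hβ h0 a b ha h1 h2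
    obtain ⟨B, hB, h⟩ := (hβ h0 a b ha h1 h2).law Pool.Agent.TH888.R.VS_univ_tendsto
    simp only [M_eq]
    exact Pool.Agent.TH888.R.bigO_all hB h
  · rw [hV] at hS ⊢
    filter_upwards [pt S] with β hβ h0 a b ha h1 h2
    obtain ⟨B, hB, h⟩ := (hβ h0 a b ha h1 h2).law hS
    simp only [M_eq]
    exact Pool.Agent.TH888.R.bigO_set hB hS h
  · rw [hV]
    filter_upwards [pt S] with β hβ h0 a b ha h1 h2
    have hP := hβ h0 a b ha h1 h2
    simp only [W_eq]
    constructor
    · intro hi
      by_contra hn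
      exact hi (hP.fin hn)
    · exact hP.inf

end Pool.Agent.Results.MP_de9007_nt.FixedPairsErrorTerm
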