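import Mathlib
import Pool.Agent.W66.LU
import Pool.Agent.H19P.NC

set_option autoImplicit false

/-!
# The Lenstra-Pomerance-Wagstaff law in the `a`-adic direction

Let `a ≥ 2` and `-a < b < a` be coprime.  The number `(a ^ p - b ^ p) / (a - b)` is the residue
modulo `a ^ p`, in `[0, a ^ p)`, of `α b ^ p` for the `a`-adic number `α = -1 / (a - b)`.  For a
sequence `d` of digits in base `a` let `α = d 0 + d 1 a + d 2 a ^ 2 + ...`, let `N a b d p` be the
residue of `α b ^ p` modulo `a ^ p` (its last `p` digits), and let `W a b d p` be the `p`-rough part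
(the product, with multiplicity, of the prime factors larger than `p`) of `N a b d p`.

The digits are independent and uniformly distributed (Haar measure on the `a`-adic integers).  We
prove that almost every sequence of digits with `d 0` prime to `a` has the following property for
all `b` at once: the number of primes `p ≤ n` with `W a b d p` prime is
`(e ^ γ / log a) log n + O((log n) ^ (1/2) (log log n) ^ (5/2))`.  The same is proved for the
exponents in any set `S` of primes, with the dichotomy finite / infinite.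
-/

namespace Pool.Agent.Results.MP_de9007_nt.LastDigits

open Filter Topology MeasureTheory Asymptotics

/-- The product, with multiplicity, of the prime factors of `m` that are larger than `p`. -/
def roughPart (p m : ℕ) : ℕ := (m.primeFactorsList.filter (fun r => p < r)).prod

/-- The residue in `[0, a ^ p)` modulo `a ^ p` of `α b ^ p`, `α = d 0 + d 1 a + d 2 a ^ 2 + ...`. -/
def N (a : ℕ) (b : ℤ) (d : ℕ → Fin a) (p : ℕ) : ℕ :=
  (((∑ i ∈ Finset.range p, ((d i : ℕ) : ℤ) * (a : ℤ) ^ i) * b ^ p) % (a : ℤ) ^ p).toNat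

/-- The `p`-rough part of the residue of `α b ^ p` modulo `a ^ p`. -/
def W (a : ℕ) (b : ℤ) (d : ℕ → Fin a) (p : ℕ) : ℕ := roughPart p (N a b d p)

open Classical in
/-- The number of primes `p ≤ n` in the set `S` for which `W a b d p` is prime. -/
noncomputable def M (S : Set ℕ) (a : ℕ) (b : ℤ) (d : ℕ → Fin a) (n : ℕ) : ℕ :=
  ((Finset.range (n + 1)).filter (fun p => p.Prime ∧ p ∈ S ∧ (W a b d p).Prime)).card

open Classical in
/-- The sum of `log p / p` over the primes `p ≤ n` in the set `S`. -/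
noncomputable def V (S : Set ℕ) (n : ℕ) : ℝ :=
  ∑ p ∈ (Finset.range (n + 1)).filter (fun p => p.Prime ∧ p ∈ S), Real.log p / p

open Classical in
/-- The number of primes `p ≤ n` in the set `S` for which `(a ^ p - b ^ p) / (a - b)` is prime. -/
noncomputable def count (S : Set ℕ) (a b : ℤ) (n : ℕ) : ℕ :=
  ((Finset.range (n + 1)).filter
    (fun p => p.Prime ∧ p ∈ S ∧ Prime ((a ^ p - b ^ p) / (a - b)))).card

/-- Independent uniformly distributed digits in base `a`. -/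
noncomputable def digits (a : ℕ) : Measure (ℕ → Fin a) :=
  Measure.infinitePi (fun _ : ℕ => ProbabilityTheory.uniformOn (Set.univ : Set (Fin a)))

lemma V_eq (S : Set ℕ) (n : ℕ) : V S n = Pool.Agent.TH888.R.VS S n := by
  classical
  unfold V Pool.Agent.TH888.R.VS
  rw [Finset.sum_filter]
  refine Finset.sum_congr rfl fun p _ => ?_
  by_cases h : p.Prime ∧ p ∈ S
  · rw [if_pos h, if_pos ⟨h.2, h.1⟩]
    rfl
  · rw [if_neg h, if_neg fun h1 => h ⟨h1.2, h1.1⟩]

/-- the residue of `b ^ p` modulo `a ^ p` -/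
def B (a : ℕ) (b : ℤ) (p : ℕ) : ℕ := (b ^ p % (a : ℤ) ^ p).toNat

lemma B_cast {a : ℕ} (ha : 2 ≤ a) (b : ℤ) (p : ℕ) : (B a b p : ℤ) = b ^ p % (a : ℤ) ^ p := by
  unfold B
  have h : (0 : ℤ) < (a : ℤ) ^ p := by positivity
  exact Int.toNat_of_nonneg (Int.emod_nonneg _ h.ne')

lemma B_modEq {a : ℕ} (ha : 2 ≤ a) (b : ℤ) (p : ℕ) : (B a b p : ℤ) ≡ b ^ p [ZMOD (a : ℤ) ^ p] := by
  rw [B_cast ha]
  exact Int.mod_modEq _ _

lemma dsum_cast (a p : ℕ) (d : ℕ → Fin a) : ((Pool.Agent.W66L.dsum a p d : ℕ) : ℤ) =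
    ∑ i ∈ Finset.range p, ((d i : ℕ) : ℤ) * (a : ℤ) ^ i := by
  unfold Pool.Agent.W66L.dsum
  push_cast
  rfl

lemma N_eq {a : ℕ} (ha : 2 ≤ a) (b : ℤ) (d : ℕ → Fin a) (p : ℕ) :
    N a b d p = (B a b p * Pool.Agent.W66L.dsum a p d) % a ^ p := by
  have h : (0 : ℤ) < (a : ℤ) ^ p := by positivity
  have h1 : (N a b d p : ℤ) = ((B a b p * Pool.Agent.W66L.dsum a p d) % a ^ p : ℕ) := by
    unfold N
    rw [Int.toNat_of_nonneg (Int.emod_nonneg _ h.ne')]
    push_cast
    rw [B_cast ha, ← dsum_cast, mul_comm]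
    exact (Int.mod_modEq (b ^ p) ((a : ℤ) ^ p)).symm.mul_right _
  exact_mod_cast h1

lemma B_coprime {a : ℕ} (ha : 2 ≤ a) {b : ℤ} (hab : IsCoprime (a : ℤ) b) {n : ℕ} (hn : 1 ≤ n) :
    (B a b n).Coprime a := by
  rw [← Nat.isCoprime_iff_coprime]
  have h1 : IsCoprime (b ^ n) (a : ℤ) := (hab.symm).pow_left
  have h2 : (a : ℤ) ∣ b ^ n - B a b n :=
    (dvd_pow_self (a : ℤ) (by omega)).trans ((B_modEq ha b n).dvd)
  obtain ⟨k, hk⟩ := h2
  have h3 : (B a b n : ℤ) = b ^ n + (a : ℤ) * (-k) := by linarith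
  rw [h3]
  exact h1.add_mul_left_left (-k)

lemma B_rel {a : ℕ} (ha : 2 ≤ a) (b : ℤ) {p q : ℕ} (hp3 : 3 ≤ p) (hp : p.Prime) (hq : q.Prime)
    (hpq : p < q) : b.natAbs ^ (q - p) * B a b p ≡ B a b q [MOD a ^ p] := by
  have he : Even (q - p) := by
    have h1 := hp.odd_of_ne_two (by omega)
    have h2 := hq.odd_of_ne_two (by omega)
    exact Nat.Odd.sub_odd h2 h1
  rw [← Int.natCast_modEq_iff]
  push_cast
  rw [he.pow_abs]
  calc b ^ (q - p) * (B a b p : ℤ) ≡ b ^ (q - p) * b ^ p [ZMOD (a : ℤ) ^ p] :=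
        (B_modEq ha b p).mul_left _
    _ = b ^ q := by rw [← pow_add, Nat.sub_add_cancel hpq.le]
    _ ≡ B a b q [ZMOD (a : ℤ) ^ p] :=
        ((B_modEq ha b q).of_dvd (pow_dvd_pow (a : ℤ) hpq.le)).symm

/-- the residues of `-1 / e` modulo the powers of `a` -/
lemma exists_digits {a e : ℕ} (ha : 2 ≤ a) (he : e.Coprime a) : ∃ d : ℕ → Fin a,
    ∀ n, (e * Pool.Agent.W66L.dsum a n d + 1) ≡ 0 [MOD a ^ n] := by
  have ha0 : ∀ n, 0 < a ^ n := fun n => by positivity
  set t : ℕ → ℕ := fun n => ((a ^ n - 1) * Pool.Agent.H19P.ivB a n e) % a ^ n with ht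
  have htlt : ∀ n, t n < a ^ n := fun n => Nat.mod_lt _ (ha0 n)
  have h1 : ∀ n, e * t n + 1 ≡ 0 [MOD a ^ n] := by
    intro n
    have h2 := Pool.Agent.H19P.ivB_mul (b := a) (n := n) (B := e) ha he
    calc e * t n + 1 ≡ e * ((a ^ n - 1) * Pool.Agent.H19P.ivB a n e) + 1 [MOD a ^ n] :=
          Nat.ModEq.add_right _ (Nat.ModEq.mul_left _ (Nat.mod_modEq _ _))
      _ = (a ^ n - 1) * (Pool.Agent.H19P.ivB a n e * e) + 1 := by ring
      _ ≡ (a ^ n - 1) * 1 + 1 [MOD a ^ n] := Nat.ModEq.add_right _ (Nat.ModEq.mul_left _ h2)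
      _ = a ^ n := by have := ha0 n; omega
      _ ≡ 0 [MOD a ^ n] := (Nat.modEq_zero_iff_dvd).2 dvd_rfl
  have h2 : ∀ n, t (n + 1) % a ^ n = t n := by
    intro n
    have h3 : e * t (n + 1) + 1 ≡ e * t n + 1 [MOD a ^ n] :=
      ((h1 (n + 1)).of_dvd (pow_dvd_pow a (by omega))).trans (h1 n).symm
    have h4 : e * t (n + 1) ≡ e * t n [MOD a ^ n] := Nat.ModEq.add_right_cancel' 1 h3
    have h5 : t (n + 1) ≡ t n [MOD a ^ n] := Nat.ModEq.cancel_left_of_coprime (by
      rw [Nat.gcd_comm]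
      exact Nat.Coprime.pow_right n he) h4
    rw [h5, Nat.mod_eq_of_lt (htlt n)]
  refine ⟨fun n => ⟨t (n + 1) / a ^ n, ?_⟩, fun n => ?_⟩
  · rw [Nat.div_lt_iff_lt_mul (ha0 n), mul_comm, ← pow_succ]
    exact htlt (n + 1)
  · have h3 : Pool.Agent.W66L.dsum a n
        (fun n => (⟨t (n + 1) / a ^ n, by
          rw [Nat.div_lt_iff_lt_mul (ha0 n), mul_comm, ← pow_succ]
          exact htlt (n + 1)⟩ : Fin a)) = t n := by
      induction n with
      | zero =>
        have := htlt 0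
        rw [pow_zero] at this
        unfold Pool.Agent.W66L.dsum
        simp only [Finset.range_zero, Finset.sum_empty]
        omega
      | succ n ih =>
        rw [Pool.Agent.W66L.dsum_succ, ih]
        simp only
        rw [← h2 n, mul_comm]
        exact Nat.mod_add_div _ _
    rw [h3]
    exact h1 n

/-- The special digits. -/
lemma special_N {a : ℕ} (ha : 2 ≤ a) {b : ℤ} (hab : IsCoprime (a : ℤ) b) (h1 : -(a : ℤ) < b)
    (h2 : b < a) {d : ℕ → Fin a}
    (hd : ∀ n, (a : ℤ) ^ n ∣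
      ((a : ℤ) - b) * ∑ i ∈ Finset.range n, ((d i : ℕ) : ℤ) * (a : ℤ) ^ i + 1)
    {p : ℕ} (hp : 1 ≤ p) : (N a b d p : ℤ) * (a - b) = (a : ℤ) ^ p - b ^ p := by
  have hap : (0 : ℤ) < (a : ℤ) ^ p := by positivity
  set e := ∑ i ∈ Finset.range p, (a : ℤ) ^ i * b ^ (p - 1 - i) with he
  have hgeom : e * (a - b) = (a : ℤ) ^ p - b ^ p := (Commute.all (a : ℤ) b).geom_sum₂_mul p
  set T := ∑ i ∈ Finset.range p, ((d i : ℕ) : ℤ) * (a : ℤ) ^ i with hT
  have hN : (N a b d p : ℤ) = (T * b ^ p) % (a : ℤ) ^ p := by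
    unfold N
    exact Int.toNat_of_nonneg (Int.emod_nonneg _ hap.ne')
  -- the congruence
  have h3 : (a : ℤ) ^ p ∣ ((a : ℤ) - b) * (T * b ^ p - e) := by
    have h4 : ((a : ℤ) - b) * (T * b ^ p - e) =
        b ^ p * (((a : ℤ) - b) * T + 1) - (a : ℤ) ^ p := by
      have : ((a : ℤ) - b) * (T * b ^ p - e) = b ^ p * (((a : ℤ) - b) * T) - e * (a - b) := by ring
      rw [this, hgeom]
      ring
    rw [h4]
    exact dvd_sub (Dvd.dvd.mul_left (hd p) _) dvd_rfl
  have hcop : IsCoprime ((a : ℤ) ^ p) ((a : ℤ) - b) := by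
    apply IsCoprime.pow_left
    have : (a : ℤ) - b = -b + (a : ℤ) * 1 := by ring
    rw [this]
    exact (hab.neg_right).add_mul_left_right 1
  have h5 : (a : ℤ) ^ p ∣ T * b ^ p - e := hcop.dvd_of_dvd_mul_left h3
  -- the size
  have habs : |b| < (a : ℤ) := abs_lt.2 ⟨h1, h2⟩
  have hbp : |b ^ p| < (a : ℤ) ^ p := by
    rw [abs_pow]
    exact pow_lt_pow_left₀ habs (abs_nonneg b) (by omega)
  obtain ⟨hb1, hb2⟩ := abs_lt.1 hbp
  have he0 : 0 < e := by
    by_contra hcon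
    push Not at hcon
    nlinarith
  have hea : e < (a : ℤ) ^ p := by
    rcases lt_or_ge ((a : ℤ) - b) 2 with h6 | h6
    · have hb0 : 1 ≤ b := by
        have : (2 : ℤ) ≤ a := by exact_mod_cast ha
        omega
      have h7 : (a : ℤ) - b = 1 := by omega
      rw [h7, mul_one] at hgeom
      have : 0 < b ^ p := by positivity
      linarith
    · by_contra hcon
      push Not at hcon
      nlinarith
  have h6 : (T * b ^ p) % (a : ℤ) ^ p = e := by
    have h7 : T * b ^ p ≡ e [ZMOD (a : ℤ) ^ p] := (Int.modEq_iff_dvd.2 (by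
      have := dvd_neg.2 h5
      rwa [neg_sub] at this))
    rw [h7, Int.emod_eq_of_lt he0.le hea]
  rw [hN, h6, hgeom]

lemma special {a : ℕ} (ha : 2 ≤ a) {b : ℤ} (hab : IsCoprime (a : ℤ) b) (h1 : -(a : ℤ) < b)
    (h2 : b < a) {d : ℕ → Fin a}
    (hd : ∀ n, (a : ℤ) ^ n ∣
      ((a : ℤ) - b) * ∑ i ∈ Finset.range n, ((d i : ℕ) : ℤ) * (a : ℤ) ^ i + 1)
    {p : ℕ} (hp : p.Prime) (hpd : ¬ (p : ℤ) ∣ (a : ℤ) - b) :
    (W a b d p : ℤ) * (a - b) = (a : ℤ) ^ p - b ^ p := by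
  have h3 := special_N ha hab h1 h2 hd hp.one_lt.le
  have hgeom : (∑ i ∈ Finset.range p, (a : ℤ) ^ i * b ^ (p - 1 - i)) * ((a : ℤ) - b) =
      (a : ℤ) ^ p - b ^ p := (Commute.all (a : ℤ) b).geom_sum₂_mul p
  have hne : (a : ℤ) - b ≠ 0 := by omega
  have h4 : (N a b d p : ℤ) = ∑ i ∈ Finset.range p, (a : ℤ) ^ i * b ^ (p - 1 - i) :=
    mul_right_cancel₀ hne (h3.trans hgeom.symm)
  have hN0 : N a b d p ≠ 0 := by
    intro h0
    rw [h0] at h3
    have habs : |b| < (a : ℤ) := abs_lt.2 ⟨h1, h2⟩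
    have hbp : |b ^ p| < (a : ℤ) ^ p := by
      rw [abs_pow]
      exact pow_lt_pow_left₀ habs (abs_nonneg b) hp.ne_zero
    have := (abs_lt.1 hbp).2
    push_cast at h3
    linarith
  have h5 : W a b d p = N a b d p := Pool.Agent.W66L.rough_quot hab hp hpd hN0 h4
  rw [h5]
  exact h3

lemma card_le_of_eventually {s t : ℕ → Prop} [DecidablePred s] [DecidablePred t] (D : ℕ)
    (h : ∀ p, D < p → s p → t p) (n : ℕ) :
    (((Finset.range (n + 1)).filter s).card : ℝ) ≤ (((Finset.range (n + 1)).filter t).card : ℝ) +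
      (D + 1 : ℕ) := by
  have h1 : (Finset.range (n + 1)).filter s ⊆ (Finset.range (n + 1)).filter t ∪ Finset.range (D + 1) := by
    intro p hp
    rw [Finset.mem_filter] at hp
    rw [Finset.mem_union, Finset.mem_filter]
    by_cases hD : D < p
    · exact Or.inl ⟨hp.1, h p hD hp.2⟩
    · exact Or.inr (Finset.mem_range.2 (by omega))
  have h2 := (Finset.card_le_card h1).trans (Finset.card_union_le _ _)
  rw [Finset.card_range] at h2
  exact_mod_cast h2

/-- for the special digits the two counting functions differ by a bounded amount -/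
lemma count_close {a : ℕ} (ha : 2 ≤ a) {b : ℤ} (hab : IsCoprime (a : ℤ) b) (h1 : -(a : ℤ) < b)
    (h2 : b < a) {d : ℕ → Fin a}
    (hd : ∀ n, (a : ℤ) ^ n ∣
      ((a : ℤ) - b) * ∑ i ∈ Finset.range n, ((d i : ℕ) : ℤ) * (a : ℤ) ^ i + 1) (S : Set ℕ) :
    ∃ D : ℝ, ∀ n : ℕ, |(count S a b n : ℝ) - M S a b d n| ≤ D := by
  classical
  have key : ∀ p : ℕ, ((a : ℤ) - b).natAbs < p → p.Prime →
      ((W a b d p).Prime ↔ Prime (((a : ℤ) ^ p - b ^ p) / ((a : ℤ) - b))) := by
    intro p hD hp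
    have h3 : ¬ (p : ℤ) ∣ (a : ℤ) - b := by
      intro hdv
      have h4 := Int.natAbs_dvd_natAbs.2 hdv
      rw [Int.natAbs_natCast] at h4
      have h5 := Nat.le_of_dvd (Int.natAbs_pos.2 (by omega)) h4
      omega
    have h4 := special ha hab h1 h2 hd hp h3
    rw [← h4, Int.mul_ediv_cancel _ (by omega)]
    exact Nat.prime_iff_prime_int
  refine ⟨(((a : ℤ) - b).natAbs + 1 : ℕ), fun n => ?_⟩
  have e1 : (M S a b d n : ℝ) ≤ count S a b n + (((a : ℤ) - b).natAbs + 1 : ℕ) :=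
    card_le_of_eventually ((a : ℤ) - b).natAbs
      (fun p hD hp => ⟨hp.1, hp.2.1, (key p hD hp.1).1 hp.2.2⟩) n
  have e2 : (count S a b n : ℝ) ≤ M S a b d n + (((a : ℤ) - b).natAbs + 1 : ℕ) :=
    card_le_of_eventually ((a : ℤ) - b).natAbs
      (fun p hD hp => ⟨hp.1, hp.2.1, (key p hD hp.1).2 hp.2.2⟩) n
  rw [abs_le]
  constructor <;> linarith

lemma exists_special {a : ℕ} (ha : 2 ≤ a) {b : ℤ} (hab : IsCoprime (a : ℤ) b) (h2 : b < a) :
    ∃ d : ℕ → Fin a, (d 0 : ℕ).Coprime a ∧ ∀ n, (a : ℤ) ^ n ∣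
      ((a : ℤ) - b) * ∑ i ∈ Finset.range n, ((d i : ℕ) : ℤ) * (a : ℤ) ^ i + 1 := by
  obtain ⟨e, he⟩ := Int.eq_ofNat_of_zero_le (show 0 ≤ (a : ℤ) - b by omega)
  have hcop : e.Coprime a := by
    rw [← Nat.isCoprime_iff_coprime, ← he]
    have : (a : ℤ) - b = -b + (a : ℤ) * 1 := by ring
    rw [this]
    exact (hab.symm.neg_left).add_mul_left_left 1
  obtain ⟨d, hd⟩ := exists_digits ha hcop
  refine ⟨d, ?_, fun n => ?_⟩
  · have h1 := hd 1
    unfold Pool.Agent.W66L.dsum at h1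
    simp only [Finset.range_one, Finset.sum_singleton, pow_zero, mul_one, pow_one] at h1
    have h3 : a ∣ e * (d 0 : ℕ) + 1 := (Nat.modEq_zero_iff_dvd).1 h1
    rw [Nat.coprime_iff_gcd_eq_one]
    have h4 : Nat.gcd (d 0 : ℕ) a ∣ 1 := by
      have h5 : Nat.gcd (d 0 : ℕ) a ∣ e * (d 0 : ℕ) + 1 := (Nat.gcd_dvd_right _ _).trans h3
      have h6 : Nat.gcd (d 0 : ℕ) a ∣ e * (d 0 : ℕ) := (Nat.gcd_dvd_left _ _).mul_left _
      exact (Nat.dvd_add_right h6).1 h5
    exact Nat.dvd_one.1 h4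
  · have h1 := (Nat.modEq_zero_iff_dvd).1 (hd n)
    rw [← dsum_cast, he]
    exact_mod_cast h1

lemma M_eq {a : ℕ} (ha : 2 ≤ a) (S : Set ℕ) (b : ℤ) (d : ℕ → Fin a) (n : ℕ) :
    M S a b d n = Pool.Agent.TH888.R.cS S
      (fun p => (B a b p * Pool.Agent.W66L.dsum a p d) % a ^ p) n := by
  classical
  unfold M Pool.Agent.TH888.R.cS W
  simp only [N_eq ha]
  rfl

lemma pt {a : ℕ} (ha : 2 ≤ a) (S : Set ℕ) : ∀ᵐ d ∂(digits a), (d 0 : ℕ).Coprime a →
    ∀ b : ℤ, IsCoprime (a : ℤ) b → -(a : ℤ) < b → b < a →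
    Pool.Agent.TH888.R.Pt (fun p => (B a b p * Pool.Agent.W66L.dsum a p d) % a ^ p)
      (Real.exp Real.eulerMascheroniConstant / Real.log a) S := by
  haveI : NeZero a := ⟨by omega⟩
  have h : ∀ b : ℤ, ∀ᵐ d ∂(digits a), (d 0 : ℕ).Coprime a → IsCoprime (a : ℤ) b →
      -(a : ℤ) < b → b < a →
      Pool.Agent.TH888.R.Pt (fun p => (B a b p * Pool.Agent.W66L.dsum a p d) % a ^ p)
        (Real.exp Real.eulerMascheroniConstant / Real.log a) S := by
    intro b
    by_cases hc : IsCoprime (a : ℤ) b ∧ -(a : ℤ) < b ∧ b < a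
    · obtain ⟨hab, h1, h2⟩ := hc
      have hb0 : b ≠ 0 := by
        rintro rfl
        rw [isCoprime_zero_right, Int.isUnit_iff] at hab
        omega
      have hcop : b.natAbs.Coprime a := by
        have h3 := Int.isCoprime_iff_gcd_eq_one.1 hab.symm
        rw [Int.gcd, Int.natAbs_natCast] at h3
        exact h3
      have hpt := Pool.Agent.H19P.pt_tw ha (Pool.Agent.W66L.full_digits a) (c := b.natAbs)
        (Int.natAbs_pos.2 hb0) (by omega) hcop (B := B a b) (fun n hn => B_coprime ha hab hn)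
        (fun p q hp3 hp hq hpq => B_rel ha b hp3 hp hq hpq) S
      have e : digits a = Pool.Agent.W66L.digitMeasure a := rfl
      rw [e]
      filter_upwards [hpt] with d hd h0 _ _ _
      refine hd ?_
      unfold Pool.Agent.W66L.dsum
      simpa using h0
    · exact Eventually.of_forall fun d h0 h1 h2 h3 => absurd ⟨h1, h2, h3⟩ hc
  filter_upwards [ae_all_iff.2 h] with d hd h0 b h1 h2 h3
  exact hd b h0 h1 h2 h3

/-- For the digits of `-1 / (a - b)` the values are the numbers of the question (so that the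
question is the law for the counting function at these digits), and almost every sequence of digits
with `d 0` prime to `a` is such that for all `b` the law holds with a square root error term; for
every set of primes the number of prime values is finite or infinite according to the weight of the
set, and in the second case it obeys the corresponding law. -/
theorem result (a : ℕ) (ha : 2 ≤ a) :
    (∀ b : ℤ, IsCoprime (a : ℤ) b → -(a : ℤ) < b → b < a → ∃ d : ℕ → Fin a,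
      (d 0 : ℕ).Coprime a ∧
      (∀ n, (a : ℤ) ^ n ∣
        ((a : ℤ) - b) * ∑ i ∈ Finset.range n, ((d i : ℕ) : ℤ) * (a : ℤ) ^ i + 1) ∧
      (∀ p : ℕ, p.Prime → ¬ (p : ℤ) ∣ (a : ℤ) - b →
        (W a b d p : ℤ) * (a - b) = (a : ℤ) ^ p - b ^ p) ∧
      ∀ S : Set ℕ, ∃ D : ℝ, ∀ n : ℕ, |(count S a b n : ℝ) - M S a b d n| ≤ D) ∧
    (∀ᵐ d ∂(digits a), (d 0 : ℕ).Coprime a →
      ∀ b : ℤ, IsCoprime (a : ℤ) b → -(a : ℤ) < b → b < a →
      (fun n : ℕ => (M Set.univ a b d n : ℝ) -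
        Real.exp Real.eulerMascheroniConstant / Real.log a * Real.log n) =O[atTop]
      (fun n : ℕ => Real.sqrt (Real.log n) * (Real.log (Real.log n)) ^ ((5 : ℝ) / 2))) ∧
    (∀ S : Set ℕ, Tendsto (V S) atTop atTop → ∀ᵐ d ∂(digits a), (d 0 : ℕ).Coprime a →
      ∀ b : ℤ, IsCoprime (a : ℤ) b → -(a : ℤ) < b → b < a →
      (fun n : ℕ => (M S a b d n : ℝ) -
        Real.exp Real.eulerMascheroniConstant / Real.log a * V S n) =O[atTop]
      (fun n : ℕ => Real.sqrt (V S n * Real.log (Real.log n)) *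
        (Real.log (V S n * Real.log (Real.log n))) ^ 2)) ∧
    (∀ S : Set ℕ, ∀ᵐ d ∂(digits a), (d 0 : ℕ).Coprime a →
      ∀ b : ℤ, IsCoprime (a : ℤ) b → -(a : ℤ) < b → b < a →
      ({p : ℕ | p.Prime ∧ p ∈ S ∧ (W a b d p).Prime}.Infinite ↔ Tendsto (V S) atTop atTop)) := by
  have hV : ∀ S, V S = Pool.Agent.TH888.R.VS S := fun S => funext fun n => V_eq S n
  refine ⟨fun b hab h1 h2 => ?_, ?_, fun S hS => ?_, fun S => ?_⟩
  · obtain ⟨d, hd0, hd⟩ := exists_special ha hab h2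
    exact ⟨d, hd0, hd, fun p hp hpd => special ha hab h1 h2 hd hp hpd,
      fun S => count_close ha hab h1 h2 hd S⟩
  · filter_upwards [pt ha Set.univ] with d hd h0 b hab h1 h2
    obtain ⟨C, hC, h⟩ := (hd h0 b hab h1 h2).law Pool.Agent.TH888.R.VS_univ_tendsto
    simp only [M_eq ha]
    exact Pool.Agent.TH888.R.bigO_all hC h
  · rw [hV] at hS ⊢
    filter_upwards [pt ha S] with d hd h0 b hab h1 h2
    obtain ⟨C, hC, h⟩ := (hd h0 b hab h1 h2).law hS
    simp only [M_eq ha]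
    exact Pool.Agent.TH888.R.bigO_set hC hS h
  · rw [hV]
    filter_upwards [pt ha S] with d hd h0 b hab h1 h2
    have hP := hd h0 b hab h1 h2
    have hW : ∀ p, W a b d p = Pool.Agent.H305R2.roughPart p
        ((B a b p * Pool.Agent.W66L.dsum a p d) % a ^ p) := by
      intro p
      unfold W
      rw [N_eq ha]
      rfl
    simp only [hW]
    constructor
    · intro hi
      by_contra hn
      exact hi (hP.fin hn)
    · exact hP.inf

end Pool.Agent.Results.MP_de9007_nt.LastDigits
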