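import Mathlib
import Pool.Agent.Y895.OL.A7
import Pool.Agent.Y895.PS.T5

set_option autoImplicit false

/-!
# Random numbers that share their leading digits with `(a ^ p - b ^ p) / (a - b)`

For integers `a > 1` and `-a < b < a` let `Q a b p = (a ^ p - b ^ p) / (a - b)`.  For a sequence `m`
and a real number `t` in `[0, 1)` replace the last `m p` base `a` digits of `Q a b p` by the first
`m p` base `a` digits of `t`; let `N a b m t p` be the result and let `W a b m t p` be its `p`-rough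
part (the product, with multiplicity, of its prime factors larger than `p`).  For a set `S` let
`M a b m S t n` be the number of primes `p ≤ n` in `S` with `W a b m t p` prime, and let `V S n` be
the sum of `log p / p` over the primes `p ≤ n` in `S`.

We prove the following for every pair `a`, `b` and every eventually monotone sequence `m` with
`p - m p → ∞`.

* A positive proportion of prescribed digits: for every `ε` in `(0, 1)` there is `δ > 0`, which does
  not depend on `a` and `b`, such that, if `m p ≥ (1 - δ) p` for large `p`, then for every set `S` and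
  almost every `t` the number of prime values is infinite if and only if `V S n → ∞`, and in this case
  it lies between `(1 - ε) (e ^ γ / log a) V S n` and `(1 + ε) (e ^ γ / log a) V S n` for large `n`.
* If `p - m p = o(p)`, then for every set `S` with `V S n → ∞` and almost every `t` the number of
  prime values is asymptotic to `(e ^ γ / log a) V S n`.
* If `m p ≥ p - κ p / log p` for large `p`, where `κ` is a positive constant depending on `a` only,
  then the number of prime values obeys for almost every `t` the law with the constant `e ^ γ / log a`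
  and a square root error term, for the set of all primes and for every set `S` of primes with
  `V S n → ∞`.
-/

namespace Pool.Agent.Results.MP_de9007_nt.LeadingDigits

open Filter Topology MeasureTheory Asymptotics

/-- The product, with multiplicity, of the prime factors of `m` that are larger than `p`. -/
def roughPart (p m : ℕ) : ℕ := (m.primeFactorsList.filter (fun r => p < r)).prod

/-- The numbers `(a ^ p - b ^ p) / (a - b)`. -/
def Q (a : ℕ) (b : ℤ) (p : ℕ) : ℕ := (((a : ℤ) ^ p - b ^ p) / ((a : ℤ) - b)).toNat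

/-- `Q a b p` with the last `m p` base `a` digits replaced by the first `m p` digits of `t`. -/
noncomputable def N (a : ℕ) (b : ℤ) (m : ℕ → ℕ) (t : ℝ) (p : ℕ) : ℕ :=
  a ^ m p * (Q a b p / a ^ m p) + ⌊(a : ℝ) ^ m p * t⌋₊

/-- The `p`-rough part of `N a b m t p`. -/
noncomputable def W (a : ℕ) (b : ℤ) (m : ℕ → ℕ) (t : ℝ) (p : ℕ) : ℕ := roughPart p (N a b m t p)

open Classical in
/-- The number of primes `p ≤ n` in the set `S` for which `W a b m t p` is prime. -/
noncomputable def M (a : ℕ) (b : ℤ) (m : ℕ → ℕ) (S : Set ℕ) (t : ℝ) (n : ℕ) : ℕ :=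
  ((Finset.range (n + 1)).filter (fun p => p.Prime ∧ p ∈ S ∧ (W a b m t p).Prime)).card

open Classical in
/-- The sum of `log p / p` over the primes `p ≤ n` in the set `S`. -/
noncomputable def V (S : Set ℕ) (n : ℕ) : ℝ :=
  ∑ p ∈ (Finset.range (n + 1)).filter (fun p => p.Prime ∧ p ∈ S), Real.log p / p

/-- The number of digits that are left free when about `κ p / log p` digits are prescribed. -/
noncomputable def free (κ : ℝ) (p : ℕ) : ℕ := p - ⌊κ * p / Real.log p⌋₊

/-- The number of digits that are left free when about `δ p` digits are prescribed. -/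
noncomputable def most (δ : ℝ) (p : ℕ) : ℕ := p - ⌊δ * p⌋₊

lemma V_eq (S : Set ℕ) (n : ℕ) : V S n = Pool.Agent.TH888.R.VS S n := by
  classical
  unfold V Pool.Agent.TH888.R.VS
  rw [Finset.sum_filter]
  refine Finset.sum_congr rfl fun p _ => ?_
  by_cases h : p.Prime ∧ p ∈ S
  · rw [if_pos h, if_pos ⟨h.2, h.1⟩]
    rfl
  · rw [if_neg h, if_neg fun h1 => h ⟨h1.2, h1.1⟩]

lemma M_eq (a : ℕ) (b : ℤ) (m : ℕ → ℕ) (S : Set ℕ) (t : ℝ) (n : ℕ) :
    M a b m S t n = Pool.Agent.TH888.R.cS S (N a b m t) n := by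
  classical
  unfold M Pool.Agent.TH888.R.cS
  rfl

lemma Q_mul {a : ℕ} {b : ℤ} (h1 : -(a : ℤ) < b) (h2 : b < a) (p : ℕ) :
    (Q a b p : ℤ) * (a - b) = (a : ℤ) ^ p - b ^ p := by
  have hpos : (0 : ℤ) < a - b := by omega
  have h0 : (0 : ℤ) ≤ (a : ℤ) ^ p - b ^ p := by
    have h3 : |b| ≤ |(a : ℤ)| := by rw [Nat.abs_cast, abs_le]; constructor <;> omega
    have h4 : |b ^ p| ≤ |(a : ℤ) ^ p| := by
      rw [abs_pow, abs_pow]; exact pow_le_pow_left₀ (abs_nonneg b) h3 p
    rw [abs_of_nonneg (by positivity : (0 : ℤ) ≤ (a : ℤ) ^ p)] at h4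
    linarith [le_abs_self (b ^ p)]
  unfold Q
  rw [Int.toNat_of_nonneg (Int.ediv_nonneg h0 hpos.le)]
  exact Int.ediv_mul_cancel (sub_dvd_pow_sub_pow _ _ p)

lemma Q_bounds {a : ℕ} {b : ℤ} (ha : 1 < a) (h1 : -(a : ℤ) < b) (h2 : b < a) :
    ∀ᶠ p : ℕ in atTop, 1 / (4 * (a : ℝ)) * (a : ℝ) ^ p ≤ Q a b p ∧
      (Q a b p : ℝ) ≤ 2 * (a : ℝ) ^ p := by
  have ha1 : (1 : ℝ) < a := by exact_mod_cast ha
  have ha0 : (0 : ℝ) < a := by linarith
  have hb : |(b : ℝ)| ≤ a - 1 := by
    rw [abs_le]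
    have e1 : -(a : ℝ) + 1 ≤ b := by exact_mod_cast (by omega : -(a : ℤ) + 1 ≤ b)
    have e2 : (b : ℝ) ≤ a - 1 := by exact_mod_cast (by omega : b ≤ (a : ℤ) - 1)
    constructor <;> linarith
  have hr : |(b : ℝ)| / a < 1 := by rw [div_lt_one ha0]; linarith
  have ht := (tendsto_pow_atTop_nhds_zero_of_lt_one (by positivity) hr).eventually
    (gt_mem_nhds (by norm_num : (0 : ℝ) < 1 / 2))
  filter_upwards [ht] with p hp
  have hm : (Q a b p : ℝ) * (a - b) = (a : ℝ) ^ p - (b : ℝ) ^ p := by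
    exact_mod_cast Q_mul h1 h2 p
  have h3 : |(b : ℝ) ^ p| ≤ (a : ℝ) ^ p / 2 := by
    rw [div_pow, div_lt_iff₀ (by positivity)] at hp
    rw [abs_pow]
    linarith
  obtain ⟨h4, h5⟩ := abs_le.1 h3
  obtain ⟨h6, h7⟩ := abs_le.1 hb
  have h8 : (0 : ℝ) ≤ Q a b p := by positivity
  have h9 : (0 : ℝ) < (a : ℝ) ^ p := by positivity
  constructor
  · rw [one_div_mul_eq_div, div_le_iff₀ (by positivity)]
    have : (Q a b p : ℝ) * (a - b) ≤ Q a b p * (2 * a) :=
      mul_le_mul_of_nonneg_left (by linarith) h8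
    linarith
  · have : (Q a b p : ℝ) * 1 ≤ Q a b p * (a - b) :=
      mul_le_mul_of_nonneg_left (by linarith) h8
    linarith

/-- The leading base `a` digits are those of `(a ^ p - b ^ p) / (a - b)`.  With a small positive
proportion of prescribed digits the dichotomy and the law with a constant close to `e ^ γ / log a`
hold for almost every `t` and every set of primes, with `o(p)` prescribed digits the law with this
constant, and with `κ p / log p` prescribed digits the law with a square root error term. -/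
theorem result :
    (∀ (a : ℕ) (b : ℤ), 1 < a → -(a : ℤ) < b → b < a →
      (∀ p : ℕ, (Q a b p : ℤ) * (a - b) = (a : ℤ) ^ p - b ^ p) ∧
      (∀ (m : ℕ → ℕ) (t : ℝ) (p : ℕ), 0 ≤ t → t < 1 →
        N a b m t p / a ^ m p = Q a b p / a ^ m p)) ∧
    (∀ ε : ℝ, 0 < ε → ε < 1 → ∃ δ : ℝ, 0 < δ ∧
      ((∀ᶠ p in atTop, most δ p ≤ most δ (p + 1)) ∧ Tendsto (fun p => p - most δ p) atTop atTop ∧
        ∀ᶠ p : ℕ in atTop, (1 - δ) * p ≤ most δ p) ∧
      ∀ (a : ℕ) (b : ℤ), 1 < a → -(a : ℤ) < b → b < a →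
        ∀ m : ℕ → ℕ, (∀ᶠ p in atTop, m p ≤ m (p + 1)) → Tendsto (fun p => p - m p) atTop atTop →
        (∀ᶠ p : ℕ in atTop, (1 - δ) * p ≤ m p) →
          ∀ S : Set ℕ, ∀ᵐ t : ℝ, 0 ≤ t → t < 1 →
            ({p : ℕ | p.Prime ∧ p ∈ S ∧ (W a b m t p).Prime}.Infinite ↔
              Tendsto (V S) atTop atTop) ∧
            (Tendsto (V S) atTop atTop → ∀ᶠ n : ℕ in atTop,
              (1 - ε) * (Real.exp Real.eulerMascheroniConstant / Real.log a) * V S n ≤
                M a b m S t n ∧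
              (M a b m S t n : ℝ) ≤
                (1 + ε) * (Real.exp Real.eulerMascheroniConstant / Real.log a) * V S n)) ∧
    (∀ (a : ℕ) (b : ℤ), 1 < a → -(a : ℤ) < b → b < a →
      ∀ m : ℕ → ℕ, (∀ᶠ p in atTop, m p ≤ m (p + 1)) → Tendsto (fun p => p - m p) atTop atTop →
      (∀ δ : ℝ, 0 < δ → ∀ᶠ p : ℕ in atTop, (1 - δ) * p ≤ m p) →
        ∀ S : Set ℕ, Tendsto (V S) atTop atTop → ∀ᵐ t : ℝ, 0 ≤ t → t < 1 →
          Tendsto (fun n : ℕ => (M a b m S t n : ℝ) / V S n) atTop
            (𝓝 (Real.exp Real.eulerMascheroniConstant / Real.log a))) ∧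
    ∀ a : ℕ, 1 < a → ∃ κ : ℝ, 0 < κ ∧
      ((∀ᶠ p in atTop, free κ p ≤ free κ (p + 1)) ∧ Tendsto (fun p => p - free κ p) atTop atTop ∧
        ∀ᶠ p : ℕ in atTop, (p : ℝ) - κ * p / Real.log p ≤ free κ p) ∧
      ∀ b : ℤ, -(a : ℤ) < b → b < a →
        ∀ m : ℕ → ℕ, (∀ᶠ p in atTop, m p ≤ m (p + 1)) → Tendsto (fun p => p - m p) atTop atTop →
        (∀ᶠ p : ℕ in atTop, (p : ℝ) - κ * p / Real.log p ≤ m p) →
          (∀ᵐ t : ℝ, 0 ≤ t → t < 1 →
            (fun n : ℕ => (M a b m Set.univ t n : ℝ) -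
              Real.exp Real.eulerMascheroniConstant / Real.log a * Real.log n) =O[atTop]
            (fun n : ℕ => Real.sqrt (Real.log n) * (Real.log (Real.log n)) ^ ((5 : ℝ) / 2))) ∧
          (∀ S : Set ℕ, Tendsto (V S) atTop atTop → ∀ᵐ t : ℝ, 0 ≤ t → t < 1 →
            (fun n : ℕ => (M a b m S t n : ℝ) -
              Real.exp Real.eulerMascheroniConstant / Real.log a * V S n) =O[atTop]
            (fun n : ℕ => Real.sqrt (V S n * Real.log (Real.log n)) *
              (Real.log (V S n * Real.log (Real.log n))) ^ 2)) := by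
  have hV : ∀ S, V S = Pool.Agent.TH888.R.VS S := fun S => funext fun n => V_eq S n
  have hc : ∀ a : ℕ, 1 < a → (0 : ℝ) < 1 / (4 * (a : ℝ)) := fun a ha => by
    have : (0 : ℝ) < a := by exact_mod_cast (by omega : 0 < a)
    positivity
  have hasy : ∀ ε : ℝ, 0 < ε → ε < 1 → ∃ δ : ℝ, 0 < δ ∧ δ < 1 ∧
      ∀ (a : ℕ) (b : ℤ), 1 < a → -(a : ℤ) < b → b < a →
        ∀ m : ℕ → ℕ, (∀ᶠ p in atTop, m p ≤ m (p + 1)) → Tendsto (fun p => p - m p) atTop atTop →
        (∀ᶠ p : ℕ in atTop, (1 - δ) * p ≤ m p) →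
          ∀ S : Set ℕ, ∀ᵐ t : ℝ, 0 ≤ t → t < 1 →
            ({p : ℕ | p.Prime ∧ p ∈ S ∧ (W a b m t p).Prime}.Infinite ↔
              Tendsto (V S) atTop atTop) ∧
            (Tendsto (V S) atTop atTop → ∀ᶠ n : ℕ in atTop,
              (1 - ε) * (Real.exp Real.eulerMascheroniConstant / Real.log a) * V S n ≤
                M a b m S t n ∧
              (M a b m S t n : ℝ) ≤
                (1 + ε) * (Real.exp Real.eulerMascheroniConstant / Real.log a) * V S n) := by
    intro ε hε hε1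
    obtain ⟨δ, hδ, hδ1, hord⟩ := Pool.Agent.Y895.PT.asy_pm_trunc ε hε hε1
    refine ⟨δ, hδ, hδ1, fun a b ha hab hba m hm ht hk S => ?_⟩
    have hQ := Q_bounds ha hab hba
    have h1 := hord a ha _ 2 (hc a ha) two_pos (Q a b) m hQ hm
      (Pool.Agent.Y895.OL.pow_le_of_tendsto (b := a) ha (hc a ha) (hQ.mono fun p hp => hp.1) ht)
      hk S
    filter_upwards [h1] with t ht h0 h1
    have h2 := ht h0 h1
    rw [hV]
    simp only [M_eq]
    exact ⟨h2.inf, h2.law⟩
  refine ⟨fun a b ha hab hba => ⟨Q_mul hab hba,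
    fun m t p h0 h1 => Pool.Agent.Y895.PM.upper_digits ha h0 h1⟩, fun ε hε hε1 => ?_,
    fun a b ha hab hba m hm ht hk S hS => ?_, fun a ha => ?_⟩
  · obtain ⟨δ, hδ, hδ1, h⟩ := hasy ε hε hε1
    obtain ⟨hd2, hd3⟩ := Pool.Agent.Y895.OL.dfree_spec hδ hδ1
    refine ⟨δ, hδ, ⟨Eventually.of_forall fun p => Pool.Agent.Y895.OL.dfree_mono hδ hδ1 p, hd3,
      ?_⟩, h⟩
    filter_upwards [hd2] with p hp using hp.2.2
  · have h1 : ∀ k : ℕ, ∀ᵐ t : ℝ, 0 ≤ t → t < 1 → ∀ᶠ n : ℕ in atTop,
        (1 - 1 / ((k : ℝ) + 2)) * (Real.exp Real.eulerMascheroniConstant / Real.log a) * V S n ≤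
          M a b m S t n ∧
        (M a b m S t n : ℝ) ≤
          (1 + 1 / ((k : ℝ) + 2)) * (Real.exp Real.eulerMascheroniConstant / Real.log a) *
            V S n := by
      intro k
      obtain ⟨δ, hδ, hδ1, h⟩ := hasy (1 / ((k : ℝ) + 2)) (by positivity) (by
        rw [div_lt_one (by positivity)]
        have : (0 : ℝ) ≤ k := Nat.cast_nonneg k
        linarith)
      filter_upwards [h a b ha hab hba m hm ht (hk δ hδ) S] with t ht h0 h1
      exact (ht h0 h1).2 hS
    filter_upwards [ae_all_iff.2 h1] with t ht h0 h1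
    exact Pool.Agent.Y895.PT.lim_of_close2 (by
      have : (0 : ℝ) < Real.log a := Real.log_pos (by exact_mod_cast ha)
      positivity) hS fun k => ht k h0 h1
  · obtain ⟨κ, hκ, h⟩ := Pool.Agent.Y895.PM.pt_trunc (b := a) ha
    obtain ⟨hf1, hf2⟩ := Pool.Agent.Y895.PM.mfree_spec hκ
    refine ⟨κ, hκ, ⟨hf1, Pool.Agent.Y895.PM.mfree_tendsto hκ, ?_⟩,
      fun b hab hba m hm ht hk => ?_⟩
    · filter_upwards [hf2] with p hp using hp.2.2
    have hQ := Q_bounds ha hab hba
    have hpt : ∀ S : Set ℕ, ∀ᵐ t : ℝ, 0 ≤ t → t < 1 → Pool.Agent.TH888.R.Pt (N a b m t)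
        (Real.exp Real.eulerMascheroniConstant / Real.log a) S := fun S =>
      h _ 2 (hc a ha) two_pos (Q a b) m hQ hm ht hk S
    refine ⟨?_, fun S hS => ?_⟩
    · filter_upwards [hpt Set.univ] with t ht h0 h1
      obtain ⟨B, hB, h⟩ := (ht h0 h1).law Pool.Agent.TH888.R.VS_univ_tendsto
      simp only [M_eq]
      exact Pool.Agent.TH888.R.bigO_all hB h
    · rw [hV] at hS ⊢
      filter_upwards [hpt S] with t ht h0 h1
      obtain ⟨B, hB, h⟩ := (ht h0 h1).law hS
      simp only [M_eq]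
      exact Pool.Agent.TH888.R.bigO_set hB hS h

end Pool.Agent.Results.MP_de9007_nt.LeadingDigits
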